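import Pool.Agent.Helper70.ML.St3

/-!
# Project ML, module PTVR: relations between transvections
-/

set_option autoImplicit false

namespace Pool.Agent.Helper36.ML

open Pool.Agent.Helper70.ML Pool.Agent.Helper75.MX

theorem tv_coe {n : ℕ} {F : Type} [Field F] (i j : Fin n) (a : F) (h : i ≠ j) :
    (tv i j a).1 = Matrix.transvection i j a := by
  have h1 : tv i j a = (⟨Matrix.transvection i j a, Matrix.det_transvection_of_ne i j h a⟩ :
    SLn n F) := dif_pos h
  rw [h1]

theorem mul_coe {n : ℕ} {F : Type} [Field F] (g h : SLn n F) : (g * h).1 = g.1 * h.1 :=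
  Matrix.SpecialLinearGroup.coe_mul g h

theorem tv_add {n : ℕ} {F : Type} [Field F] (i j : Fin n) (a b : F) (h : i ≠ j) :
    tv i j a * tv i j b = tv i j (a + b) := by
  apply Subtype.ext
  rw [mul_coe, tv_coe i j a h, tv_coe i j b h, tv_coe i j (a + b) h,
    Matrix.transvection_mul_transvection_same _ _ h]

theorem tv_zero {n : ℕ} {F : Type} [Field F] (i j : Fin n) (h : i ≠ j) :
    tv i j (0 : F) = 1 := by
  apply Subtype.ext
  rw [tv_coe i j 0 h, Matrix.transvection_zero]
  rfl

theorem tv_inv {n : ℕ} {F : Type} [Field F] (i j : Fin n) (a : F) (h : i ≠ j) :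
    (tv i j a)⁻¹ = tv i j (-a) := by
  rw [inv_eq_iff_mul_eq_one, tv_add i j a (-a) h, add_neg_cancel, tv_zero i j h]

theorem hPTVR : StPTVR := by
  intro n F _
  refine ⟨fun i j a b h => tv_add i j a b h, ?_, ?_, fun i j a h => tv_inv i j a h, ?_⟩
  · intro i j k l a b hij hkl hjk hil
    apply Subtype.ext
    rw [mul_coe, mul_coe, tv_coe i j a hij, tv_coe k l b hkl]
    unfold Matrix.transvection
    rw [add_mul, mul_add, mul_add, mul_one, one_mul, mul_one,
      Matrix.single_mul_single_of_ne _ _ _ _ hjk, add_mul, mul_add, mul_add, mul_one, one_mul,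
      mul_one, Matrix.single_mul_single_of_ne _ _ _ _ (Ne.symm hil)]
    abel
  · intro i j k a b hij hjk hik
    have key : tv i j a * tv j k b = tv i k (a * b) * tv j k b * tv i j a := by
      apply Subtype.ext
      rw [mul_coe, mul_coe, mul_coe, tv_coe i j a hij, tv_coe j k b hjk, tv_coe i k (a * b) hik]
      unfold Matrix.transvection
      simp only [add_mul, mul_add, mul_one, one_mul, Matrix.single_mul_single_same]
      rw [Matrix.single_mul_single_of_ne _ _ _ _ (Ne.symm hjk),
        Matrix.single_mul_single_of_ne _ _ _ _ (Ne.symm hik),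
        Matrix.single_mul_single_of_ne _ _ _ _ (Ne.symm hik)]
      simp only [zero_mul]
      abel
    rw [key]
    group
  · intro i j a h h1
    have h2 := congrArg (fun g : SLn n F => g.1 i j) h1
    rw [tv_coe i j a h] at h2
    unfold Matrix.transvection at h2
    have h3 : ((1 : SLn n F) : Matrix (Fin n) (Fin n) F) i j = 0 := by
      rw [Matrix.SpecialLinearGroup.coe_one, Matrix.one_apply_ne h]
    rw [Matrix.add_apply, Matrix.one_apply_ne h, Matrix.single_apply_same, zero_add] at h2
    rw [h2]
    exact h3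

end Pool.Agent.Helper36.ML
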